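import Pool.Agent.Helper65.JL.Stmts

/-! JL, row MIX -/

set_option autoImplicit false

open Set Filter Topology Pool.Agent.Helper86.TK Pool.Agent.Helper65.JL

namespace Pool.Agent.Helper21.JL

theorem mix_eq (Q : Set (T → ℝ)) (m : ℕ) (h : ℝ) : Mix Q m h =
    (fun p : (Fin m → T → ℝ) × (Fin m → T → ℝ) => fun t => ∑ i, h * (p.1 i t - p.2 i t)) ''
      ((Set.univ.pi fun _ => Q) ×ˢ (Set.univ.pi fun _ => Q)) := by
  ext c
  constructor
  · rintro ⟨u, v, hu, hv, rfl⟩
    exact ⟨(u, v), ⟨fun i _ => hu i, fun i _ => hv i⟩, rfl⟩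
  · rintro ⟨⟨u, v⟩, ⟨hu, hv⟩, rfl⟩
    exact ⟨u, v, fun i => hu i (Set.mem_univ i), fun i => hv i (Set.mem_univ i), rfl⟩

theorem st_MIX : ST_MIX := by
  intro Q hQ m h
  obtain ⟨hc, hn, _⟩ := hQ
  constructor
  · rw [mix_eq]
    have h1 : IsCompact (Set.univ.pi fun _ : Fin m => Q) := isCompact_univ_pi fun _ => hc
    refine (h1.prod h1).image ?_
    refine continuous_pi fun t => ?_
    refine continuous_finsetSum _ fun i _ => ?_
    refine continuous_const.mul ?_
    have h2 : Continuous fun p : (Fin m → T → ℝ) × (Fin m → T → ℝ) => p.1 i t := by fun_prop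
    have h3 : Continuous fun p : (Fin m → T → ℝ) × (Fin m → T → ℝ) => p.2 i t := by fun_prop
    exact h2.sub h3
  · rintro c ⟨u, v, hu, hv, rfl⟩
    unfold Null
    have h2 : Tendsto (fun t : T => ∑ i : Fin m, h * (u i t - v i t)) cofinite
        (𝓝 (∑ _i : Fin m, h * (0 - 0))) := by
      refine tendsto_finsetSum _ fun i _ => ?_
      exact ((hn _ (hu i)).sub (hn _ (hv i))).const_mul h
    simpa using h2

end Pool.Agent.Helper21.JL
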